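import Pool.Agent.helper55.ZI.Spec2

/-!
# zi:PTH: if every node branches there is a path
-/

set_option autoImplicit false

namespace Pool.Agent.helper21.ZI

open Pool.Agent.ZI

universe u

theorem PTH_seq (R : Type u) [Ring R] (S : ℕ → Subring R) (hS : SemisimpleChain R S) (e : R) (hee : e * e = e)
    (he : e ≠ 0) (hbr : ∀ m (L : Ideal (S m)), Node S e m L → Branches S e m L) :
    ∃ (σ : ℕ → ℕ) (L : ∀ k, Ideal (S (σ k))), (∀ k, Node S e (σ k) (L k)) ∧ (∀ k, σ k < σ (k + 1)) ∧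
      (∀ k, ∀ a ∈ L k, ∃ a' ∈ L (k + 1), (a' : R) = (a : R)) ∧
      ∀ k, ∃ x ∈ S (σ (k + 1)), (∀ a ∈ L k, ∃ a' ∈ L (k + 1), (a' : R) = (a : R) * x) ∧
        ∃ a ∈ L (k + 1), ∀ a' ∈ L (k + 1), (a' : R) ≠ (a : R) * x := by
  obtain ⟨m₀, hm₀⟩ := hS.cov e
  have h0 : ∃ L : Ideal (S m₀), Node S e m₀ L := by
    have hmem : 1 - e ∈ S m₀ := sub_mem (one_mem _) hm₀
    have hne : (Ideal.span {(⟨1 - e, hmem⟩ : S m₀)}) ≠ ⊤ := by
      intro htop
      have h1 : (1 : S m₀) ∈ Ideal.span {(⟨1 - e, hmem⟩ : S m₀)} := by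
        rw [htop]
        trivial
      obtain ⟨a, ha⟩ := Submodule.mem_span_singleton.1 h1
      have h2 : (a : R) * (1 - e) = 1 := congrArg Subtype.val ha
      apply he
      calc e = 1 * e := (one_mul e).symm
        _ = ((a : R) * (1 - e)) * e := by rw [h2]
        _ = 0 := by rw [mul_assoc, sub_mul, one_mul, hee, sub_self, mul_zero]
    obtain ⟨M, hM, hle⟩ := Ideal.exists_le_maximal _ hne
    exact ⟨M, hM, hm₀, ⟨1 - e, hmem⟩, hle (Submodule.mem_span_singleton_self _), rfl⟩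
  obtain ⟨L₀, hL₀⟩ := h0
  let NT := {p : Σ m, Ideal (S m) // Node S e p.1 p.2}
  have hstep : ∀ p : NT, ∃ q : NT, p.1.1 < q.1.1 ∧ (∀ a ∈ p.1.2, ∃ a' ∈ q.1.2, (a' : R) = (a : R)) ∧
      ∃ x ∈ S q.1.1, (∀ a ∈ p.1.2, ∃ a' ∈ q.1.2, (a' : R) = (a : R) * x) ∧
        ∃ a ∈ q.1.2, ∀ a' ∈ q.1.2, (a' : R) ≠ (a : R) * x := by
    intro p
    obtain ⟨m', L', h1, h2, h3, h4⟩ := hbr p.1.1 p.1.2 p.2
    exact ⟨⟨⟨m', L'⟩, h2⟩, h1, h3, h4⟩
  choose f hf using hstep
  let s : ℕ → NT := fun k => Nat.rec ⟨⟨m₀, L₀⟩, hL₀⟩ (fun _ p => f p) k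
  exact ⟨fun k => (s k).1.1, fun k => (s k).1.2, fun k => (s k).2, fun k => (hf (s k)).1,
    fun k => (hf (s k)).2.1, fun k => (hf (s k)).2.2⟩

theorem PTH : PTH_stmt.{u} := by
  intro R _ S hS e hee he hbr
  obtain ⟨σ, L, hN, hlt, hsub, hx⟩ := PTH_seq R S hS e hee he hbr
  have hmono : StrictMono σ := strictMono_nat_of_lt_succ hlt
  have hsub' : ∀ k l, k ≤ l → ∀ a ∈ L k, ∃ a' ∈ L l, (a' : R) = (a : R) := by
    intro k l hkl
    induction l, hkl using Nat.le_induction with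
    | base =>
      intro a ha
      exact ⟨a, ha, rfl⟩
    | succ l hl ih =>
      intro a ha
      obtain ⟨a', ha', e1⟩ := ih a ha
      obtain ⟨a'', ha'', e2⟩ := hsub l a' ha'
      exact ⟨a'', ha'', e2.trans e1⟩
  let LL : Submodule R R :=
    { carrier := {r | ∃ k, ∃ a ∈ L k, (a : R) = r}
      add_mem' := by
        rintro r r' ⟨k, a, ha, rfl⟩ ⟨k', a', ha', rfl⟩
        obtain ⟨b, hb, e1⟩ := hsub' k (max k k') (le_max_left _ _) a ha
        obtain ⟨b', hb', e2⟩ := hsub' k' (max k k') (le_max_right _ _) a' ha'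
        exact ⟨max k k', b + b', add_mem hb hb', by rw [← e1, ← e2]; rfl⟩
      zero_mem' := ⟨0, 0, zero_mem _, rfl⟩
      smul_mem' := by
        rintro c r ⟨k, a, ha, rfl⟩
        obtain ⟨n, hn⟩ := hS.cov c
        have hc : c ∈ S (σ (max k n)) := hS.mono ((le_max_right k n).trans (hmono.le_apply)) hn
        obtain ⟨b, hb, e1⟩ := hsub' k (max k n) (le_max_left _ _) a ha
        exact ⟨max k n, (⟨c, hc⟩ : S (σ (max k n))) * b, Ideal.mul_mem_left _ _ hb, by rw [← e1]; rfl⟩ }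
  have hin : ∀ k (a : S (σ k)), a ∈ L k → (a : R) ∈ LL := fun k a ha => ⟨k, a, ha, rfl⟩
  have h1 : (1 : R) ∉ LL := by
    rintro ⟨k, a, ha, h⟩
    have h2 : a = 1 := Subtype.ext h
    rw [h2] at ha
    exact (hN k).1.ne_top ((Ideal.eq_top_iff_one _).2 ha)
  have hcap : ∀ k (a : S (σ k)), (a : R) ∈ LL → a ∈ L k := by
    intro k a ha
    by_contra hna
    have hsup : L k ⊔ Submodule.span (S (σ k)) {a} = ⊤ :=
      (hN k).1.out.2 _ (left_lt_sup.2 (fun h => hna (h (Submodule.mem_span_singleton_self a))))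
    have h2 : (1 : S (σ k)) ∈ L k ⊔ Submodule.span (S (σ k)) {a} := by
      rw [hsup]
      trivial
    obtain ⟨y, hy, z, hz, hyz⟩ := Submodule.mem_sup.1 h2
    obtain ⟨c, hc⟩ := Submodule.mem_span_singleton.1 hz
    apply h1
    have h3 : (1 : R) = (y : R) + (c : R) • (a : R) := by
      have h4 := congrArg Subtype.val hyz
      have h5 : ((y + z : S (σ k)) : R) = 1 := h4
      rw [← hc] at h5
      exact h5.symm
    rw [h3]
    exact add_mem (hin k y hy) (LL.smul_mem _ ha)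
  have hz : ∀ r : R, r • LL.mkQ 1 = LL.mkQ r := by
    intro r
    rw [← map_smul, smul_eq_mul, mul_one]
  have hz0 : ∀ r : R, r • LL.mkQ 1 = 0 ↔ r ∈ LL := by
    intro r
    rw [hz, Submodule.mkQ_apply, Submodule.Quotient.mk_eq_zero]
  refine ⟨σ, hmono, R ⧸ LL, inferInstance, inferInstance, LL.mkQ 1, ?_, ?_, ?_, ?_⟩
  · intro h
    apply h1
    have := (hz0 1).1 (by rw [one_smul]; exact h)
    exact this
  · obtain ⟨-, -, a, ha, hae⟩ := hN 0
    have h2 : (1 : R) - e ∈ LL := by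
      rw [← hae]
      exact hin 0 a ha
    rw [hz, Submodule.mkQ_apply, Submodule.mkQ_apply, Submodule.Quotient.eq]
    have h3 : e - 1 = -(1 - e) := by abel
    rw [h3]
    exact neg_mem h2
  · intro k
    have hker : LinearMap.ker (LinearMap.toSpanSingleton (S (σ k)) (R ⧸ LL) (LL.mkQ 1)) = L k := by
      ext a
      rw [LinearMap.mem_ker, LinearMap.toSpanSingleton_apply]
      show (a : R) • LL.mkQ 1 = 0 ↔ _
      rw [hz0]
      exact ⟨hcap k a, hin k a⟩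
    have hsimp : IsSimpleModule (S (σ k)) (S (σ k) ⧸ LinearMap.ker (LinearMap.toSpanSingleton (S (σ k)) (R ⧸ LL) (LL.mkQ 1))) := by
      rw [isSimpleModule_iff_isCoatom, hker]
      exact (hN k).1.out
    have hr : VV (fun k => S (σ k)) (LL.mkQ 1) k =
        LinearMap.range (LinearMap.toSpanSingleton (S (σ k)) (R ⧸ LL) (LL.mkQ 1)) :=
      LinearMap.span_singleton_eq_range _ _ _
    rw [hr]
    exact IsSimpleModule.congr (LinearMap.quotKerEquivRange (LinearMap.toSpanSingleton (S (σ k)) (R ⧸ LL) (LL.mkQ 1))).symm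
  · intro k
    obtain ⟨x, hxm, hx1, b, hb, hb2⟩ := hx k
    refine ⟨x • LL.mkQ 1, ?_, ?_, ?_⟩
    · exact Submodule.mem_span_singleton.2 ⟨(⟨x, hxm⟩ : S (σ (k + 1))), rfl⟩
    · intro a ha h0
      have h2 : (⟨a, ha⟩ : S (σ k)) ∈ L k := hcap k ⟨a, ha⟩ ((hz0 a).1 h0)
      obtain ⟨a', ha', e1⟩ := hx1 _ h2
      rw [← mul_smul, hz0]
      have e2 : (a' : R) = a * x := e1
      rw [← e2]
      exact hin (k + 1) a' ha'
    · refine ⟨(b : R), b.2, (hz0 _).2 (hin (k + 1) b hb), ?_⟩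
      intro h2
      rw [← mul_smul, hz0] at h2
      have hbx : (b : R) * x ∈ S (σ (k + 1)) := mul_mem b.2 hxm
      exact hb2 ⟨(b : R) * x, hbx⟩ (hcap (k + 1) ⟨(b : R) * x, hbx⟩ h2) rfl

end Pool.Agent.helper21.ZI
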